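import Mathlib
import Pool.Agent.H29.ZMon

/-! A super-decomposable abelian group with non-commutative centrally essential endomorphism
ring. -/

namespace Pool.Agent.Results.MP_6d0c2f_al.Super

/-- Centrally essential rings. -/
def CentrallyEssential (R : Type) [Ring R] : Prop :=
  ∀ a : R, a ≠ 0 → ∃ x ∈ Subring.center R, ∃ y ∈ Subring.center R, x ≠ 0 ∧ y ≠ 0 ∧ a * x = y

/-- A group is indecomposable when it is not the direct sum of two nonzero subgroups. -/
def Indecomposable (G : Type) [AddCommGroup G] : Prop :=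
  ∀ H K : AddSubgroup G, IsCompl H K → H = ⊥ ∨ K = ⊥

/-- No direct summand is both nonzero and indecomposable. -/
def SuperDecomposable (A : Type) [AddCommGroup A] : Prop :=
  ∀ B : AddSubgroup A, (∃ C : AddSubgroup A, IsCompl B C) → ¬ (B ≠ ⊥ ∧ Indecomposable B)

theorem result : ∃ (A : Type) (_ : AddCommGroup A), SuperDecomposable A ∧
    (∃ φ χ : AddMonoid.End A, φ * χ ≠ χ * φ) ∧ CentrallyEssential (AddMonoid.End A) := by
  obtain ⟨A, _, -, h1, h2, h3⟩ := Pool.Agent.H29.ZMon.main
  refine ⟨A, inferInstance, ?_, ?_, h1⟩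
  · rintro B ⟨C, hC⟩ ⟨hB, hI⟩
    obtain ⟨H, K, hHK, hH, hK⟩ := h3 B C hC hB
    exact (hI H K hHK).elim hH hK
  · by_contra h
    push Not at h
    have := h2 (Finsupp.single [0, 1] 1 - Finsupp.single [1, 0] 1) fun r => by
      rw [Finsupp.sum_sub_index (fun _ _ _ => sub_smul _ _ _), Finsupp.sum_single_index (by simp),
        Finsupp.sum_single_index (by simp)]
      simp [h (r 0)]
    have h4 := DFunLike.congr_fun this [0, 1]
    simp at h4

end Pool.Agent.Results.MP_6d0c2f_al.Super
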